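import Pool.Agent.Helper98.QR.StmtsC

namespace QR

noncomputable section

theorem LT_fin_le (n : ℕ) : {t : LT | t.edges ≤ n}.Finite := by
  induction n with
  | zero =>
    refine (Set.finite_singleton LT.nil).subset ?_
    intro t ht
    cases t with
    | nil => rfl
    | cons δ c s => simp [LT.edges] at ht
  | succ n ih =>
    have h1 : (insert LT.nil ((fun x : Fin 3 × LT × LT => LT.cons x.1 x.2.1 x.2.2) ''
        ((Set.univ : Set (Fin 3)) ×ˢ ({t : LT | t.edges ≤ n} ×ˢ {t : LT | t.edges ≤ n})))).Finite :=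
      ((Set.finite_univ.prod (ih.prod ih)).image _).insert _
    refine h1.subset ?_
    intro t ht
    cases t with
    | nil => exact Set.mem_insert _ _
    | cons δ c s =>
      refine Set.mem_insert_of_mem _ ⟨(δ, c, s), ⟨Set.mem_univ _, ?_, ?_⟩, rfl⟩
      · simp only [LT.edges, Set.mem_setOf_eq] at ht ⊢; omega
      · simp only [LT.edges, Set.mem_setOf_eq] at ht ⊢; omega

theorem step_dist (b : ℤ → ℤ) (hs : ∀ i, b (i + 1) = b i + 1 ∨ b (i + 1) = b i - 1) (i : ℤ) (n : ℕ) :
    |b (i + n) - b i| ≤ n := by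
  induction n with
  | zero => simp
  | succ n ih =>
    have e : i + ((n + 1 : ℕ) : ℤ) = i + n + 1 := by push_cast; ring
    rw [e]
    rw [abs_le] at ih ⊢
    push_cast
    rcases hs (i + n) with h | h <;> constructor <;> omega

theorem per_emod {α : Type} (f : ℤ → α) (q : ℤ) (hf : ∀ i, f (i + q) = f i) (i : ℤ) : f i = f (i % q) := by
  have h : Function.Periodic f q := hf
  have := h.int_mul (i / q) (i % q)
  rw [← this]
  congr 1
  have := Int.emod_add_mul_ediv i q
  push_cast
  linarith [mul_comm q (i / q)]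

theorem Brd_fin (P : ℕ) (k : ℤ) (hP : 1 ≤ P) : (Brd P k).Finite := by
  have hfin : (Set.pi Set.univ (fun _ : Fin (2 * P) => Set.Icc k (k + 2 * P))).Finite :=
    Set.Finite.pi fun _ => Set.finite_Icc _ _
  refine Set.Finite.of_finite_image (f := fun b : ℤ → ℤ => fun i : Fin (2 * P) => b ((i : ℕ) : ℤ))
    (hfin.subset ?_) ?_
  · rintro _ ⟨b, ⟨hs, hp, hk, i0, hi0⟩, rfl⟩
    intro i _
    refine ⟨hk _, ?_⟩
    -- find a representative of i0 below i
    have hq : (0 : ℤ) < 2 * P := by omega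
    set j : ℤ := ((i : ℕ) : ℤ) with hj
    have hmod : b ((i0 - j) % (2 * P) + j) = k := by
      have h1 : b (i0 - j + j) = b ((i0 - j) % (2 * P) + j) :=
        per_emod (fun x => b (x + j)) (2 * P) (fun x => by
          have := hp (x + j)
          change b (x + 2 * P + j) = b (x + j)
          rw [← this]; congr 1; ring) (i0 - j)
      rw [← h1, sub_add_cancel, hi0]
    have h0 := Int.emod_nonneg (i0 - j) hq.ne'
    have h1 := Int.emod_lt_of_pos (i0 - j) hq
    obtain ⟨n, hn⟩ := Int.eq_ofNat_of_zero_le h0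
    have h2 := step_dist b hs j n
    rw [hn, add_comm] at hmod
    rw [hmod, abs_le] at h2
    change b j ≤ k + 2 * P
    have : (n : ℤ) < 2 * P := by rw [← hn]; exact h1
    omega
  · intro b hb b' hb' h
    funext i
    have hq : (0 : ℤ) < 2 * P := by omega
    rw [per_emod b (2 * P) hb.2.1 i, per_emod b' (2 * P) hb'.2.1 i]
    have h0 := Int.emod_nonneg i hq.ne'
    have h1 := Int.emod_lt_of_pos i hq
    obtain ⟨n, hn⟩ := Int.eq_ofNat_of_zero_le h0
    rw [hn] at h1 ⊢
    have := congrFun h ⟨n, by omega⟩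
    exact this

theorem st_C01 : ST_C01 := by
  refine ⟨fun n => (LT_fin_le n).subset fun t ht => le_of_eq ht, Brd_fin, ?_⟩
  intro P N k hP
  have hfin : ((Brd P k) ×ˢ (Set.pi Set.univ (fun _ : Fin (2 * P) => {t : LT | t.edges ≤ N}))).Finite :=
    (Brd_fin P k hP).prod (Set.Finite.pi fun _ => LT_fin_le N)
  refine Set.Finite.of_finite_image
    (f := fun c : Code P => (c.b, fun i : Fin (2 * P) => c.t ((i : ℕ) : ℤ))) (hfin.subset ?_) ?_
  · rintro _ ⟨c, ⟨hmin, hsz⟩, rfl⟩
    refine ⟨⟨c.step, c.per_b, hmin.1, hmin.2⟩, ?_⟩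
    intro i _
    change (c.t ((i : ℕ) : ℤ)).edges ≤ N
    rcases c.step ((i : ℕ) : ℤ) with h | h
    · rw [c.up _ h]; simp [LT.edges]
    · rw [← hsz]
      have hmem : ((i : ℕ) : ℤ) ∈ dn P c.b := by
        unfold dn
        rw [Finset.mem_filter, Finset.mem_Ico]
        refine ⟨⟨by omega, ?_⟩, h⟩
        have := i.2
        omega
      exact Finset.single_le_sum (f := fun i => (c.t i).edges) (fun _ _ => Nat.zero_le _) hmem
  · intro c _ c' _ h
    simp only [Prod.mk.injEq] at h
    have hq : (0 : ℤ) < 2 * P := by omega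
    apply Code.ext h.1
    funext i
    rw [per_emod c.t (2 * P) c.per_t i, per_emod c'.t (2 * P) c'.per_t i]
    have h0 := Int.emod_nonneg i hq.ne'
    have h1 := Int.emod_lt_of_pos i hq
    obtain ⟨n, hn⟩ := Int.eq_ofNat_of_zero_le h0
    rw [hn] at h1 ⊢
    exact congrFun h.2 ⟨n, by omega⟩

end

end QR
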