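import Pool.Agent.Helper98.QR.StmtsC

namespace QR

noncomputable section

open PowerSeries

theorem st_C02 (h1 : ST_C01) : ST_C02 := by
  classical
  intro ω θ l
  obtain ⟨hfin, -, -⟩ := h1
  let F : ℕ → Finset LT := fun n => (hfin n).toFinset
  have hF : ∀ n t, t ∈ F n ↔ t.edges = n := fun n t => by simp [F]
  have hco : ∀ (n : ℕ) (l : ℤ), coeff n (TS ω θ l) = (1 / 12 : ℝ) ^ n * ∑ t ∈ F n, t.W ω θ l := by
    intro n l
    rw [TS, coeff_mk]
    congr 1
    exact finsum_mem_eq_finite_toFinset_sum _ (hfin n)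
  have hsplit : ∀ (n : ℕ) (g : LT → ℝ), ∑ t ∈ F (n + 1), g t =
      ∑ δ : Fin 3, ∑ x ∈ Finset.HasAntidiagonal.antidiagonal n, ∑ c ∈ F x.1, ∑ s ∈ F x.2, g (LT.cons δ c s) := by
    intro n g
    have e1 : ∑ δ : Fin 3, ∑ x ∈ Finset.HasAntidiagonal.antidiagonal n, ∑ c ∈ F x.1, ∑ s ∈ F x.2, g (LT.cons δ c s) =
        ∑ y ∈ (Finset.univ : Finset (Fin 3)) ×ˢ ((Finset.HasAntidiagonal.antidiagonal n).sigma
          (fun x => F x.1 ×ˢ F x.2)), g (LT.cons y.1 y.2.2.1 y.2.2.2) := by
      rw [Finset.sum_product]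
      refine Finset.sum_congr rfl fun δ _ => ?_
      rw [Finset.sum_sigma]
      refine Finset.sum_congr rfl fun x _ => ?_
      rw [Finset.sum_product]
    rw [e1]
    symm
    refine Finset.sum_bij (fun y _ => LT.cons y.1 y.2.2.1 y.2.2.2) ?_ ?_ ?_ ?_
    · rintro ⟨δ, x, c, s⟩ hy
      simp only [Finset.mem_product, Finset.mem_univ, Finset.mem_sigma, true_and, hF,
        Finset.HasAntidiagonal.mem_antidiagonal] at hy ⊢
      simp only [LT.edges]
      omega
    · rintro ⟨δ, ⟨x1, x2⟩, c, s⟩ hy ⟨δ', ⟨x1', x2'⟩, c', s'⟩ hy' h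
      simp only [Finset.mem_product, Finset.mem_univ, Finset.mem_sigma, true_and, hF,
        Finset.HasAntidiagonal.mem_antidiagonal] at hy hy'
      simp only [LT.cons.injEq] at h
      obtain ⟨r1, r2, r3⟩ := h
      subst r1 r2 r3
      obtain ⟨_, p1, p2⟩ := hy
      obtain ⟨_, q1, q2⟩ := hy'
      subst p1 p2 q1 q2
      rfl
    · intro t ht
      rw [hF] at ht
      cases t with
      | nil => simp [LT.edges] at ht
      | cons δ c s =>
        simp only [LT.edges] at ht
        have hcs : c.edges + s.edges = n := by omega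
        refine ⟨(δ, ⟨(c.edges, s.edges), (c, s)⟩), ?_, rfl⟩
        simp [hF, hcs]
    · intro _ _; rfl
  ext n
  rcases n with _ | n
  · have h0 : F 0 = {LT.nil} := by
      ext t
      rw [hF, Finset.mem_singleton]
      cases t <;> simp [LT.edges]
    rw [hco, h0]
    simp only [mul_add, mul_one, coeff_C_mul, LinearMap.map_add]
    simp [LT.W, mul_assoc]
  · rw [hco, hsplit]
    have hS : ∀ A B : PowerSeries ℝ, coeff (n + 1) (C (ω l) * (1 + C (1 / 12) * X * A * B)) =
        ω l * (1 / 12 * ∑ x ∈ Finset.HasAntidiagonal.antidiagonal n, coeff x.1 A * coeff x.2 B) := by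
      intro A B
      rw [coeff_C_mul, LinearMap.map_add, coeff_one, if_neg (Nat.succ_ne_zero n), zero_add]
      have : C (1 / 12 : ℝ) * X * A * B = C (1 / 12 : ℝ) * (X * (A * B)) := by ring
      rw [this, coeff_C_mul, coeff_succ_X_mul, coeff_mul]
    rw [hS]
    simp only [LinearMap.map_add, coeff_C_mul, hco]
    have hch : ∀ δ : Fin 3, LT.ch l δ = l + ((δ : ℕ) : ℤ) - 1 := fun δ => rfl
    rw [Finset.sum_comm, Finset.mul_sum, Finset.mul_sum, Finset.mul_sum]
    refine Finset.sum_congr rfl fun x hx => ?_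
    have hx' : x.1 + x.2 = n := by simpa using hx
    have hterm : ∀ δ : Fin 3, ∑ c ∈ F x.1, ∑ s ∈ F x.2, (LT.cons δ c s).W ω θ l =
        ω l * (θ (LT.ch l δ) * (∑ c ∈ F x.1, c.W ω θ (LT.ch l δ)) * (∑ s ∈ F x.2, s.W ω θ l)) := by
      intro δ
      simp only [LT.W]
      rw [Finset.mul_sum (s := F x.1), Finset.sum_mul, Finset.mul_sum]
      refine Finset.sum_congr rfl fun c _ => ?_
      rw [Finset.mul_sum, Finset.mul_sum]
    simp only [hterm]
    rw [Fin.sum_univ_three]
    have c0 : LT.ch l 0 = l - 1 := by simp [LT.ch]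
    have c1 : LT.ch l 1 = l := by simp [LT.ch]
    have c2 : LT.ch l 2 = l + 1 := by simp [LT.ch]; ring
    rw [c0, c1, c2, ← hx', pow_succ, pow_add]
    ring

end

end QR
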