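import Pool.Agent.Helper98.QR.StmtsC

namespace QR

noncomputable section

open Classical in
theorem st_C04 : ST_C04 := by
  refine ⟨?_, ?_, ?_, ?_, ?_, ?_⟩
  · intro t
    induction t with
    | nil => intro l; simp [LT.W, LT.ge, one]
    | cons δ c s ihc ihs =>
      intro l
      simp only [LT.W, LT.ge, ihc, ihs, one, pos]
      by_cases h1 : 1 ≤ LT.ch l δ <;> by_cases h2 : c.ge 1 (LT.ch l δ) <;> by_cases h3 : s.ge 1 l <;>
        simp [h1, h2, h3]
  · intro t
    induction t with
    | nil => intro l κ r j; simp [LT.W, LT.ge, LT.low, one]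
    | cons δ c s ihc ihs =>
      intro l κ r j
      simp only [LT.W, LT.ge, ihc, ihs, one, dmp, LT.low]
      by_cases h1 : LT.ch l δ < j
      · have h1' : ¬ j ≤ LT.ch l δ := by omega
        simp [h1, h1']
      · have h1' : j ≤ LT.ch l δ := by omega
        by_cases h2 : c.ge j (LT.ch l δ) <;> by_cases h3 : s.ge j l <;> by_cases h4 : LT.ch l δ ≤ r <;>
          simp [h1, h1', h2, h3, h4, pow_add]
        try ring
  · intro t
    have hdg : ∀ l : ℤ, dg l = (13 / 12 : ℝ) ^ (if l = 1 then 1 else 0) := by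
      intro l; unfold dg; split_ifs <;> simp
    induction t with
    | nil => intro l; simp only [LT.W, LT.ge, LT.cor, if_true, hdg]
    | cons δ c s ihc ihs =>
      intro l
      simp only [LT.W, LT.ge, ihc, ihs, pos, LT.cor, hdg]
      generalize (if l = 1 then 1 else 0) = k
      by_cases h1 : 1 ≤ LT.ch l δ
      · by_cases h2 : c.ge 1 (LT.ch l δ)
        · by_cases h3 : s.ge 1 l
          · rw [if_pos h1, if_pos h2, if_pos h3, if_pos ⟨h1, h2, h3⟩, pow_add, pow_add]; ring
          · rw [if_neg h3, if_neg (show ¬(1 ≤ LT.ch l δ ∧ c.ge 1 (LT.ch l δ) ∧ s.ge 1 l) from fun h => h3 h.2.2)]; ring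
        · rw [if_neg h2, if_neg (show ¬(1 ≤ LT.ch l δ ∧ c.ge 1 (LT.ch l δ) ∧ s.ge 1 l) from fun h => h2 h.2.1)]; ring
      · rw [if_neg h1, if_neg (show ¬(1 ≤ LT.ch l δ ∧ c.ge 1 (LT.ch l δ) ∧ s.ge 1 l) from fun h => h1 h.1)]; ring
  · intro t
    induction t with
    | nil => intro l k; simp [LT.ge]
    | cons δ c s ihc ihs =>
      intro l k
      have e : LT.ch (l + 1) δ = LT.ch l δ + 1 := by unfold LT.ch; ring
      simp only [LT.ge, e, ihc, ihs]
      constructor
      · rintro ⟨a, b, c⟩; exact ⟨by omega, b, c⟩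
      · rintro ⟨a, b, c⟩; exact ⟨by omega, b, c⟩
  · intro t
    induction t with
    | nil => intro l k _; simp [LT.ge]
    | cons δ c s ihc ihs =>
      intro l k h
      simp only [LT.ge] at h ⊢
      exact ⟨by omega, ihc _ _ h.2.1, ihs _ _ h.2.2⟩
  · intro t
    induction t with
    | nil => intro l hl _; simp [LT.ge, LT.cor]; omega
    | cons δ c s ihc ihs =>
      intro l hl h
      simp only [LT.ge, LT.cor] at h ⊢
      have hl1 : l ≠ 1 := by omega
      have hs := ihs l hl h.2.2
      rw [if_neg hl1]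
      constructor
      · intro h0
        have hc0 : c.cor 1 (LT.ch l δ) = 0 := by omega
        have hs0 : s.cor 1 l = 0 := by omega
        have hch : LT.ch l δ ≠ 1 := by
          intro h1
          rw [h1] at hc0
          cases c with
          | nil => simp [LT.cor] at hc0
          | cons _ _ _ => simp [LT.cor] at hc0
        have h2 : 2 ≤ LT.ch l δ := by have := h.1; omega
        exact ⟨h2, (ihc _ h2 h.2.1).1 hc0, hs.1 hs0⟩
      · rintro ⟨h2, hc2, hs2⟩
        have := (ihc _ h2 h.2.1).2 hc2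
        have := hs.2 hs2
        omega

end

end QR
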