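import Pool.Agent.Helper98.QR.StmtsC

namespace QR

noncomputable section

theorem Qf_basic (z : ℝ) (hz : 0 ≤ z) : ∀ l : ℕ, 1 ≤ Qf z l ∧ Qf z l + 1 ≤ Qf z (l + 1) ∧
    Qf z (l + 1) ^ 2 + Qf z l ^ 2 - (z + 2) * Qf z (l + 1) * Qf z l - Qf z (l + 1) - Qf z l = 0 := by
  intro l
  induction l with
  | zero =>
    refine ⟨by simp [Qf], by simp [Qf]; linarith, ?_⟩
    simp [Qf]
    ring
  | succ l ih =>
    obtain ⟨h1, h2, h3⟩ := ih
    have e : Qf z (l + 1 + 1) = (z + 2) * Qf z (l + 1) - Qf z l + 1 := by rw [Qf]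
    refine ⟨by linarith, ?_, ?_⟩
    · rw [e]
      nlinarith
    · rw [e]
      linear_combination h3

theorem Qf_prod (z : ℝ) (hz : 0 ≤ z) (l : ℕ) :
    Qf z (l + 2) * Qf z l = Qf z (l + 1) * (Qf z (l + 1) - 1) := by
  obtain ⟨h1, h2, h3⟩ := Qf_basic z hz l
  rw [Qf]
  linear_combination (-1 : ℝ) * h3

theorem Qf_zero (l : ℕ) : Qf 0 l = ((l : ℝ) + 1) * (l + 2) / 2 ∧
    Qf 0 (l + 1) = ((l : ℝ) + 2) * (l + 3) / 2 := by
  induction l with
  | zero => constructor <;> norm_num [Qf]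
  | succ l ih =>
    refine ⟨?_, ?_⟩
    · rw [ih.2]; push_cast; ring
    · rw [Qf, ih.1, ih.2]; push_cast; ring

theorem st_C06 : ST_C06 := by
  intro y hy0 hy1
  set z : ℝ := 6 * y / (1 - y) with hz
  have hy : 0 < 1 - y := by linarith
  have hz0 : 0 ≤ z := by positivity
  have hQ := Qf_basic z hz0
  have hG : ∀ l, Gf y l = 2 / (1 + y) * (1 - 1 / Qf z l) := fun l => rfl
  refine ⟨fun l => (hQ l).1, ?_, ?_, ?_, ?_⟩
  · rw [hG]; simp [Qf]
  · intro l
    rw [hG]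
    have h1 := (hQ l).1
    have h2 : 1 / Qf z l ≤ 1 := by rw [div_le_one (by linarith)]; exact h1
    have h3 : 0 ≤ 1 / Qf z l := by positivity
    have h4 : 0 < 2 / (1 + y) := by positivity
    constructor
    · apply mul_nonneg h4.le; linarith
    · calc 2 / (1 + y) * (1 - 1 / Qf z l) ≤ 2 / (1 + y) * 1 := by
            apply mul_le_mul_of_nonneg_left _ h4.le; linarith
        _ = _ := mul_one _
  · intro l
    rw [hG, hG, hG]
    obtain ⟨a1, a2, a3⟩ := hQ l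
    obtain ⟨b1, b2, b3⟩ := hQ (l + 1)
    have hp := Qf_prod z hz0 l
    have hs : Qf z (l + 2) + Qf z l = (z + 2) * Qf z (l + 1) + 1 := by rw [Qf]; ring
    have hz' : z * (1 - y) = 6 * y := by rw [hz]; field_simp
    have c1 : Qf z (l + 1 + 1) = Qf z (l + 2) := rfl
    rw [c1] at b2
    generalize Qf z (l + 2) = q2 at *
    generalize Qf z (l + 1) = q1 at *
    generalize Qf z l = q0 at *
    have h0 : q0 ≠ 0 := by linarith
    have h1 : q1 ≠ 0 := by linarith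
    have h2 : q2 ≠ 0 := by linarith
    have h11 : q1 - 1 ≠ 0 := by linarith
    have h1y : 1 + y ≠ 0 := by linarith
    have hS : (1 / q0 + 1 / q1 + 1 / q2) * (q1 - 1) = z + 3 := by
      have e1 : 1 / q0 + 1 / q2 = ((z + 2) * q1 + 1) / (q1 * (q1 - 1)) := by
        rw [← hs, ← hp]; field_simp
      have e2 : 1 / q0 + 1 / q1 + 1 / q2 = ((z + 2) * q1 + 1) / (q1 * (q1 - 1)) + 1 / q1 := by
        rw [← e1]; ring
      rw [e2]; field_simp; ring
    have hk : (1 - y) * (z + 3) = 3 * (1 + y) := by linarith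
    have hE : (1 / q0 + 1 / q1 + 1 / q2) * (1 - 1 / q1) = (z + 3) / q1 := by
      rw [← hS]; field_simp
    have hF : (1 - y ^ 2) / 12 * (2 / (1 + y) * (1 - 1 / q0) + 2 / (1 + y) * (1 - 1 / q1) +
        2 / (1 + y) * (1 - 1 / q2)) * (2 / (1 + y) * (1 - 1 / q1)) =
        (1 - y) / (3 * (1 + y)) * (3 * (1 - 1 / q1) - (1 / q0 + 1 / q1 + 1 / q2) * (1 - 1 / q1)) := by
      field_simp
      ring
    have hzz : z + 3 = 3 * (1 + y) / (1 - y) := by rw [eq_div_iff hy.ne']; linarith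
    rw [hF, hE, hzz]
    have hyne : 1 - y ≠ 0 := hy.ne'
    field_simp
    ring
  · intro l
    have := (Qf_zero l).1
    unfold Gf Aw
    have e : (6 * (0 : ℝ) / (1 - 0)) = 0 := by norm_num
    rw [e, this]
    have h1 : (l : ℝ) + 1 ≠ 0 := by positivity
    have h2 : (l : ℝ) + 2 ≠ 0 := by positivity
    push_cast
    field_simp
    ring

end

end QR
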