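import Pool.Agent.Helper70.QR.A00
import Pool.Agent.Helper58.QR.A01
import Pool.Agent.Helper58.QR.A02
import Pool.Agent.Helper99.QR.A03
import Pool.Agent.Helper41.QR.A06
import Pool.Agent.Helper99.QR.A07
import Pool.Agent.Helper35.QR.A08
import Pool.Agent.Helper58.QR.A09
import Pool.Agent.Helper91.QR.A10
import Pool.Agent.Helper91.QR.A11
import Pool.Agent.Helper2.QR.A12
import Pool.Agent.Helper65.QR.A13
import Pool.Agent.Helper65.QR.A14
import Pool.Agent.Helper35.QR.AA
import Pool.Agent.Helper12.QR.FinalT0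

/-!
# Block A of QR: assembly
-/

namespace QR

theorem a01 : ST_A01 := st_A01
theorem a03 : ST_A03 := st_A03 (st_A02 st_A01)
theorem a06 : ST_A06 := st_A06 st_A01 st_A04
theorem a07 : ST_A07 := st_A07 st_A04 st_A05 a06
theorem a08 : ST_A08 := st_A08 st_A00 a06
theorem a09 : ST_A09 := st_A09 st_A04 a06
theorem a10 : ST_A10 := st_A10 st_A01
theorem a11 : ST_A11 := st_A11 st_A01
theorem a12 : ST_A12 := st_A12 a03 a06 a10
theorem a13 : ST_A13 := st_A13 a11 t13
theorem a14 : ST_A14 := st_A14 st_A00 a06 a12 a13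

/-- the simple core of the root is large with positive probability -/
theorem a_final : ST_A := st_AA a07 a08 a09 a14

end QR
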