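import Pool.Agent.Helper71.QR.C01
import Pool.Agent.Helper71.QR.C02
import Pool.Agent.Helper91.QR.C03
import Pool.Agent.Helper71.QR.C04
import Pool.Agent.Helper99.QR.C05
import Pool.Agent.Helper71.QR.C06
import Pool.Agent.Helper64.QR.C07
import Pool.Agent.Helper79.QR.C08
import Pool.Agent.Helper91.QR.C09
import Pool.Agent.Helper99.QR.C10
import Pool.Agent.Helper32.QR.C11
import Pool.Agent.Helper3.QR.C14
import Pool.Agent.Helper42.QR.C15
import Pool.Agent.Helper42.QR.C16
import Pool.Agent.Helper87.QR.C17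
import Pool.Agent.Helper99.QR.C20
import Pool.Agent.Helper99.QR.C21
import Pool.Agent.Helper78.QR.C22
import Pool.Agent.Helper78.QR.C23
import Pool.Agent.Helper65.QR.C24
import Pool.Agent.Helper65.QR.C25
import Pool.Agent.Helper87.QR.C26
import Pool.Agent.Helper63.QR.C27
import Pool.Agent.Helper63.QR.C30
import Pool.Agent.Helper78.QR.C31
import Pool.Agent.Helper63.QR.C32
import Pool.Agent.Helper87.QR.C33

/-!
# Block C of QR: assembly
-/

namespace QR

theorem c01 : ST_C01 := st_C01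
theorem c02 : ST_C02 := st_C02 st_C01
theorem c03 : ST_C03 := st_C03 st_C01
theorem c04 : ST_C04 := st_C04
theorem c05 : ST_C05 := st_C05 st_C01 c02
theorem c07 : ST_C07 := st_C07 c02 c05 st_C06
theorem c08 : ST_C08 := st_C08 st_C06
theorem c10 : ST_C10 := st_C10 st_C01 st_C04 c07 c08 st_C09
theorem c14 : ST_C14 := st_C14 st_C01 c03 c10 st_C13
theorem c16 : ST_C16 := st_C16 c02 c05
theorem c17 : ST_C17 := st_C17 st_C01 c03 st_C15 c16
theorem c20 : ST_C20 := st_C20 st_C01 st_C04 c05 c10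
theorem c21 : ST_C21 := st_C21 st_C01 c02 st_C04 c10 st_C11
theorem c24 : ST_C24 := st_C24 c10 st_C12 c20 c21 st_C22 st_C23
theorem c25 : ST_C25 := st_C25 c10 st_C11 st_C12 c20 c21 st_C22 st_C23 c24
theorem c26 : ST_C26 := st_C26 st_C01
theorem c32 : ST_C32 := st_C32 st_C31
theorem c33 : ST_C33 := st_C33 st_C30 c32

theorem c27 : ST_C27 :=
  st_C27 st_C01 c03 st_C04 c10 st_C11 st_C13 c21 c24 c25 c26

end QR
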