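import Pool.Agent.Helper71.QR.FinalA
import Pool.Agent.Helper71.QR.FinalC
import Pool.Agent.Helper12.QR.FinalT
import Pool.Agent.Helper78.QR.S01
import Pool.Agent.Helper66.QR.S02
import Pool.Agent.Helper78.QR.S03
import Pool.Agent.Helper1.QR.S04
import Pool.Agent.Helper39.QR.S05
import Pool.Agent.Helper28.QR.S06
import Pool.Agent.Helper33.QR.S07
import Pool.Agent.Helper33.QR.S08
import Pool.Agent.Helper62.QR.S09
import Pool.Agent.Helper39.QR.SS

/-!
# Block S of QR: assembly
-/

namespace QR

theorem s02 : ST_S02 := st_S02 st_B st_C01 st_C04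
theorem s03 : ST_S03 := st_S03 st_C01 st_C04 st_B
theorem s04 : ST_S04 := st_S04 st_S01 st_C01 st_B
theorem s05 : ST_S05 := st_S05 t09 st_T10 st_T11
theorem s06 : ST_S06 := QR28.st_S06 s02 s03 s04 s05 c14 c17 c27 c33
theorem s07 : ST_S07 := st_S07 st_S01
theorem s09 : ST_S09 := QRS09.st_S09 st_S01

/-- the estimates for the quadrangulations with a simple boundary -/
theorem s_final : ST_S := st_S (st_S08 s06 s07 a_final t09) s09

end QR
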